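import Pool.Agent.MP_fc7299_nt.AP.V3

/-! Almost all `n` are `x + y` with `2 ^ x + y` an almost prime. -/

theorem Pool.Agent.Results.MP_fc7299_nt.AlmostAll.result :
    Filter.Tendsto (fun N : ℕ => ({n : ℕ | n < N ∧ ¬ ∃ x y : ℕ, 0 < x ∧ 0 < y ∧ n = x + y ∧
      ArithmeticFunction.cardFactors (2 ^ x + y) ≤ 4}.ncard : ℝ) / N) Filter.atTop (nhds 0) :=
  Pool.Agent.MP_fc7299_nt.AP.all4
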