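import Pool.Agent.MP_fc7299_nt.EN.Main

/-! Every large `n` is `x + y` with `2 ^ x + y` having few distinct prime factors. -/

theorem Pool.Agent.Results.MP_fc7299_nt.EveryN.result : ∀ ε : ℝ, 0 < ε →
    ∀ᶠ n : ℕ in Filter.atTop, ∃ x y : ℕ, 0 < x ∧ 0 < y ∧ n = x + y ∧
      ((2 ^ x + y).primeFactors.card : ℝ) ≤ (3 / 5 + ε) * Real.log n / Real.log (Real.log n) :=
  Pool.Agent.MP_fc7299_nt.EN.main
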