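import Pool.Agent.MP_fc7299_nt.Mg.Conv

set_option autoImplicit false

namespace Pool.Agent.Results.MP_fc7299_nt.RandomSieve

open Pool.Agent.MP_00acf4_nt Pool.Agent.MP_fc7299_nt MeasureTheory

theorem result : IsProbabilityMeasure law ∧ ∀ θ β : ℝ, θ ≤ 1 → 0 ≤ β → β < θ / Real.log 2 →
    θ / Real.log 2 - β + β * Real.log (β * Real.log 2 / θ) ≠ 1 →
    ∀ᵐ a ∂law, ((∃ n₀ : ℕ, ∀ n : ℕ, n₀ ≤ n → β * Real.log n < (Set.ncard
      {x : ℕ | 0 < x ∧ x < n ∧ (x : ℝ) < (n : ℝ) ^ θ ∧ Sifted a (2 ^ x + (n - x))} : ℝ)) ↔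
        1 < θ / Real.log 2 - β + β * Real.log (β * Real.log 2 / θ)) := by
  refine ⟨inferInstance, fun θ β θ1 β0 h1 h2 => ?_⟩
  have l0 := Real.log_pos one_lt_two
  have θ0 : 0 < θ := (div_pos_iff_of_pos_right l0).mp (β0.trans_lt h1)
  have e : ∀ a (n : ℕ), 1 ≤ n → {x : ℕ | 0 < x ∧ x < n ∧ (x : ℝ) < (n : ℝ) ^ θ ∧
      Sifted a (2 ^ x + (n - x))} = {x : ℕ | 0 < x ∧ (x : ℝ) < (n : ℝ) ^ θ ∧
        Sifted a (2 ^ x + (n - x))} := fun a n hn => by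
    ext x
    refine and_congr_right fun _ => ⟨fun h3 => h3.2, fun h3 => ⟨?_, h3⟩⟩
    exact_mod_cast h3.1.trans_le ((Real.rpow_le_rpow_of_exponent_le (by exact_mod_cast hn)
      θ1).trans_eq (Real.rpow_one _))
  rcases h2.lt_or_gt with h2 | h2
  · have h3 := mul_lt_mul_of_pos_right h2 l0
    rw [add_mul, sub_mul, div_mul_cancel₀ _ l0.ne'] at h3
    filter_upwards [conv θ0 θ1 β0 ((lt_div_iff₀ l0).mp h1) (by linarith)] with a ha
    refine iff_of_false (fun ⟨n₀, h⟩ => ?_) h2.not_gt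
    obtain ⟨n, hn, h4⟩ := Filter.frequently_atTop.mp ha (max n₀ 1)
    exact (e a n (le_of_max_le_right hn) ▸ h n (le_of_max_le_left hn)).not_ge h4
  obtain ⟨y, y0, y1, hy⟩ : ∃ y : ℝ, 0 < y ∧ y < 1 ∧ 1 < θ * y / Real.log 2 + β * Real.log (1 - y) := by
    rcases β0.eq_or_lt with rfl | β1
    · simp only [sub_zero, zero_mul, add_zero, one_lt_div l0] at h2 ⊢
      have := (div_lt_one θ0).mpr h2
      refine ⟨(1 + Real.log 2 / θ) / 2, by positivity, by linarith, ?_⟩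
      rw [← mul_div_assoc, mul_add, mul_div_cancel₀ _ θ0.ne']
      linarith
    · refine ⟨1 - β * Real.log 2 / θ, sub_pos.mpr ((div_lt_one θ0).mpr ((lt_div_iff₀ l0).mp h1)),
        sub_lt_self _ (by positivity), h2.trans_eq ?_⟩
      rw [sub_sub_cancel]
      field_simp
  filter_upwards [main θ1 β0 y0 y1 hy] with a ha
  obtain ⟨n₀, h⟩ := Filter.eventually_atTop.mp (ha.and (Filter.eventually_ge_atTop 1))
  exact iff_of_true ⟨n₀, fun n hn => e a n (h n hn).2 ▸ (h n hn).1⟩ h2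

end Pool.Agent.Results.MP_fc7299_nt.RandomSieve
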